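import Pool.Agent.Lib.DM.F4.FH

/-!
# Theorem DU (`p = 3`, `3` ramified), part F, generic part: the curves `y² = x³ + g x² + a x` (author helper79)

`T = -x/y`, `W = -1/y`, so `W = T³ + g T² W + a T W²`; `W = X³ w`, `w = wS g a`. `c⁴ = 3`, `k = 1, 2`; the coefficients of `u` are
divisible by `c^k`, the leading one exactly; `q² = x(T3)`, `T3` a point of order three, `q c` a unit. `fh`: the tangent at
`T3` is not the cube of a quotient of bounded series.
-/

set_option autoImplicit false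

namespace DU.F4

open PowerSeries DI.F4

/-- the equation of the curve in the coordinates `T`, `W` -/
def CEq {R : Type} [CommRing R] (g a : R) (T W : R⟦X⟧) : Prop :=
  W = T ^ 3 + C g * T ^ 2 * W + C a * T * W ^ 2

/-! ## The series `w` -/

section w

variable {R : Type} [CommRing R] (g a : R)

private noncomputable def ph (y : R⟦X⟧) : R⟦X⟧ :=
  1 + C g * (X ^ 2 * y) + C a * (X ^ 4 * y ^ 2)

private noncomputable def sq : ℕ → R⟦X⟧
  | 0 => 0
  | k + 1 => ph g a (sq k)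

private theorem ph_sub (y z : R⟦X⟧) : ph g a y - ph g a z =
    X * ((y - z) * (C g * X + C a * (X ^ 3 * (y + z)))) := by
  unfold ph
  ring

private theorem sq_dvd (k : ℕ) : (X : R⟦X⟧) ^ k ∣ sq g a (k + 1) - sq g a k := by
  induction k with
  | zero => exact ⟨_, (one_mul _).symm⟩
  | succ k ih =>
    obtain ⟨e, he⟩ := ih
    change X ^ (k + 1) ∣ ph g a (sq g a (k + 1)) - ph g a (sq g a k)
    rw [ph_sub, he]
    exact ⟨e * (C g * X + C a * (X ^ 3 * (sq g a (k + 1) + sq g a k))), by ring⟩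

private theorem sq_coeff {n k : ℕ} (h : n < k) :
    coeff n (sq g a k) = coeff n (sq g a (n + 1)) := by
  obtain ⟨m, rfl⟩ : ∃ m, k = n + 1 + m := ⟨k - (n + 1), by omega⟩
  clear h
  induction m with
  | zero => rfl
  | succ m ih =>
    rw [← ih]
    obtain ⟨e, he⟩ := sq_dvd g a (n + 1 + m)
    have h1 : sq g a (n + 1 + (m + 1)) = sq g a (n + 1 + m) + X ^ (n + 1 + m) * e := by
      rw [← he]
      ring_nf
    rw [h1, map_add, coeff_X_pow_mul', if_neg (by omega), add_zero]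

/-- the series `w` of the curve with the coefficients `g`, `a` -/
noncomputable def wS : R⟦X⟧ := mk fun n => coeff n (sq g a (n + 1))

private theorem wS_dvd (k : ℕ) : (X : R⟦X⟧) ^ k ∣ wS g a - sq g a k := by
  rw [X_pow_dvd_iff]
  intro n hn
  rw [map_sub, wS, coeff_mk, sq_coeff g a hn, sub_self]

theorem wS_eq : wS g a = 1 + C g * (X ^ 2 * wS g a) + C a * (X ^ 4 * wS g a ^ 2) := by
  have h1 : ∀ k : ℕ, (X : R⟦X⟧) ^ k ∣ wS g a - ph g a (wS g a) := by
    intro k
    have h2 : (X : R⟦X⟧) ^ k ∣ wS g a - sq g a (k + 1) :=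
      (pow_dvd_pow X (Nat.le_succ k)).trans (wS_dvd g a (k + 1))
    have h3 : (X : R⟦X⟧) ^ k ∣ ph g a (wS g a) - ph g a (sq g a k) := by
      obtain ⟨e, he⟩ := wS_dvd g a k
      rw [ph_sub, he]
      exact ⟨X * (e * (C g * X + C a * (X ^ 3 * (wS g a + sq g a k)))), by ring⟩
    have h4 : wS g a - ph g a (wS g a) =
        (wS g a - sq g a (k + 1)) - (ph g a (wS g a) - ph g a (sq g a k)) := by
      change wS g a - ph g a (wS g a) =
        (wS g a - ph g a (sq g a k)) - (ph g a (wS g a) - ph g a (sq g a k))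
      ring
    rw [h4]
    exact dvd_sub h2 h3
  have h5 : wS g a - ph g a (wS g a) = 0 := by
    ext n
    have h6 := (X_pow_dvd_iff).1 (h1 (n + 1)) n (Nat.lt_succ_self n)
    rw [h6, map_zero]
  exact sub_eq_zero.1 h5

theorem wS_const : constantCoeff (wS g a) = 1 := by
  have h := congrArg constantCoeff (wS_eq g a)
  simpa using h

/-- uniqueness -/
theorem wS_uniq {y : R⟦X⟧} (h : y = 1 + C g * (X ^ 2 * y) + C a * (X ^ 4 * y ^ 2)) :
    y = wS g a := by
  have h1 := wS_eq g a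
  have h2 : (y - wS g a) * (1 - X * (C g * X + C a * (X ^ 3 * (y + wS g a)))) = 0 := by
    linear_combination h - h1
  have h3 : IsUnit (1 - X * (C g * X + C a * (X ^ 3 * (y + wS g a)))) := by
    rw [isUnit_iff_constantCoeff]
    simp
  exact sub_eq_zero.1 ((h3.mul_left_eq_zero).1 h2)

theorem map_wS {S : Type} [CommRing S] (φ : R →+* S) : map φ (wS g a) = wS (φ g) (φ a) := by
  apply wS_uniq
  have h := congrArg (map φ) (wS_eq g a)
  simpa only [map_add, map_mul, map_pow, map_one, map_X, map_C] using h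

/-- `P = 1 - g X² - 2 a X⁴ w` -/
noncomputable def PS : R⟦X⟧ := 1 - C g * X ^ 2 - 2 * (C a * (X ^ 4 * wS g a))

theorem PS_const : constantCoeff (PS g a) = 1 := by
  simp [PS]

/-- the invariant differential `om = 1 / P` -/
noncomputable def omS : R⟦X⟧ := invOfUnit (PS g a) 1

theorem PS_omS : PS g a * omS g a = 1 :=
  mul_invOfUnit (PS g a) 1 (by rw [PS_const, Units.val_one])

theorem omS_const : constantCoeff (omS g a) = 1 := by
  have h := congrArg constantCoeff (PS_omS g a)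
  rwa [map_mul, PS_const, one_mul, map_one] at h

theorem map_PS {S : Type} [CommRing S] (φ : R →+* S) : map φ (PS g a) = PS (φ g) (φ a) := by
  simp only [PS, map_sub, map_mul, map_pow, map_one, map_X, map_C, map_ofNat, map_wS]

theorem map_omS {S : Type} [CommRing S] (φ : R →+* S) : map φ (omS g a) = omS (φ g) (φ a) := by
  have h1 := congrArg (map φ) (PS_omS g a)
  rw [map_mul, map_PS, map_one] at h1
  have h2 := PS_omS (φ g) (φ a)
  calc map φ (omS g a) = map φ (omS g a) * (PS (φ g) (φ a) * omS (φ g) (φ a)) := by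
        rw [h2, mul_one]
    _ = (PS (φ g) (φ a) * map φ (omS g a)) * omS (φ g) (φ a) := by ring
    _ = omS (φ g) (φ a) := by rw [h1, one_mul]

/-- `T³ w(T)` is the only solution `W` of `CEq g a T W` with constant coefficient `0`. -/
theorem wSol {T : R⟦X⟧} (hT : constantCoeff T = 0) :
    CEq g a T (T ^ 3 * cs (wS g a) T) ∧
    ∀ Y Z : R⟦X⟧, constantCoeff Y = 0 → constantCoeff Z = 0 → CEq g a T Y → CEq g a T Z →
      Y = Z := by
  refine ⟨?_, fun Y Z hY hZ h1 h2 => ?_⟩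
  · have h := congrArg (fun f => cs f T) (wS_eq g a)
    have h3 : cs (wS g a) T =
        1 + C g * (T ^ 2 * cs (wS g a) T) + C a * (T ^ 4 * cs (wS g a) T ^ 2) := by
      refine h.trans ?_
      simp only [cs_add hT, cs_mul hT, cs_pow hT, cs_X hT, cs_one, cs_C]
    unfold CEq
    linear_combination T ^ 3 * h3
  · have h3 : (Y - Z) * (1 - C g * T ^ 2 - C a * T * (Y + Z)) = 0 := by
      unfold CEq at h1 h2
      linear_combination h1 - h2
    have h4 : IsUnit (1 - C g * T ^ 2 - C a * T * (Y + Z)) := by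
      rw [isUnit_iff_constantCoeff]
      simp [hT, hY, hZ]
    exact sub_eq_zero.1 ((h4.mul_left_eq_zero).1 h3)

theorem wS_der_eq : derivative R (wS g a) =
    C g * (2 * X * wS g a + X ^ 2 * derivative R (wS g a)) +
      C a * (4 * X ^ 3 * wS g a ^ 2 + 2 * X ^ 4 * wS g a * derivative R (wS g a)) := by
  have h1 := congrArg (derivative R) (wS_eq g a)
  simp only [map_add, Derivation.leibniz, Derivation.leibniz_pow, Derivation.map_one_eq_zero,
    smul_eq_mul, nsmul_eq_mul, derivative_C] at h1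
  have hX : derivative R (X : R⟦X⟧) = 1 := derivative_X
  rw [hX] at h1
  refine h1.trans ?_
  push_cast
  ring

/-- `dW = (3 T² + 2 g T W + a W²) om dT` -/
theorem wDer : 3 * wS g a + X * derivative R (wS g a) =
    (3 + 2 * C g * (X ^ 2 * wS g a) + C a * (X ^ 4 * wS g a ^ 2)) * omS g a := by
  have h1 := wS_der_eq g a
  have h2 := PS_omS g a
  have h4 : (3 * wS g a + X * derivative R (wS g a)) * PS g a =
      3 + 2 * C g * (X ^ 2 * wS g a) + C a * (X ^ 4 * wS g a ^ 2) := by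
    have h3 := wS_eq g a
    unfold PS
    linear_combination X * h1 + 3 * h3
  linear_combination (-(3 * wS g a + X * derivative R (wS g a))) * h2 + omS g a * h4

theorem star {T : R⟦X⟧} (hT : constantCoeff T = 0) :
    derivative R (T ^ 3 * cs (wS g a) T) =
      (3 * T ^ 2 + 2 * C g * (T * (T ^ 3 * cs (wS g a) T)) + C a * (T ^ 3 * cs (wS g a) T) ^ 2) *
        (cs (omS g a) T * derivative R T) := by
  have h1 := congrArg (fun f => cs f T) (wDer g a)
  simp only [cs_add hT, cs_mul hT, cs_pow hT, cs_X hT, cs_C] at h1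
  have h0 : cs (3 : R⟦X⟧) T = 3 := cs_ofNat T 3
  have h0' : cs (2 : R⟦X⟧) T = 2 := cs_ofNat T 2
  rw [h0, h0'] at h1
  rw [Derivation.leibniz, Derivation.leibniz_pow, d_cs hT]
  simp only [smul_eq_mul, nsmul_eq_mul]
  push_cast
  linear_combination (derivative R T * T ^ 2) * h1

/-- The first coefficients of the invariant differential. -/
theorem omS_exp : ∃ Z : R⟦X⟧, omS g a = 1 + C g * X ^ 2 + X ^ 3 * Z := by
  have h2 := PS_omS g a
  unfold PS at h2
  refine ⟨C g ^ 2 * X * omS g a + 2 * C a * C g * X ^ 3 * wS g a * omS g a +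
    2 * C a * X * wS g a * omS g a, ?_⟩
  linear_combination (1 + C g * X ^ 2) * h2

end w

/-! ## The logarithm -/

section lg

variable {L : Type} [Field L] (g a : L)

/-- the logarithm `∑ c_m X^m / m` of the curve, `c_m` = coefficient of `X^(m-1)` in `om` -/
noncomputable def lgS : L⟦X⟧ := mk fun m => coeff (m - 1) (omS g a) / m

theorem lgS_const : constantCoeff (lgS g a) = 0 := by
  rw [← coeff_zero_eq_constantCoeff_apply, lgS, coeff_mk, Nat.cast_zero, div_zero]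

theorem coeff_one_lgS : coeff 1 (lgS g a) = 1 := by
  rw [lgS, coeff_mk, Nat.cast_one, div_one, Nat.sub_self, coeff_zero_eq_constantCoeff_apply,
    omS_const]

theorem d_lgS [CharZero L] : derivative L (lgS g a) = omS g a := by
  ext n
  rw [coeff_derivative, lgS, coeff_mk, Nat.add_sub_cancel]
  have h : ((n : L) + 1) ≠ 0 := by exact_mod_cast Nat.succ_ne_zero n
  push_cast
  field_simp

variable {g a}

/-- A point `(T, W)` of the curve whose differential is `du`: `lg(T) = u`. -/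
theorem lg_of_diff [CharZero L] {T W u : L⟦X⟧}
    (hT : constantCoeff T = 0) (hW : constantCoeff W = 0) (hu : constantCoeff u = 0) (hT0 : T ≠ 0)
    (hE : CEq g a T W)
    (hD : derivative L T * W - T * derivative L W = -(2 * W * derivative L u)) :
    cs (lgS g a) T = u ∧ W = T ^ 3 * cs (wS g a) T := by
  obtain ⟨h1, h2⟩ := wSol g a hT
  have hc : constantCoeff (T ^ 3 * cs (wS g a) T) = 0 := by
    rw [map_mul, map_pow, hT, zero_pow (by norm_num), zero_mul]
  have hWe : W = T ^ 3 * cs (wS g a) T := h2 W _ hW hc hE h1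
  have hS := star g a hT
  rw [← hWe] at hS
  have hw : constantCoeff (cs (wS g a) T) = 1 := by
    rw [constantCoeff_cs hT, wS_const]
  have hw0 : cs (wS g a) T ≠ 0 := by
    intro h
    rw [h, map_zero] at hw
    exact zero_ne_one hw
  have hW0 : W ≠ 0 := by
    rw [hWe]
    exact mul_ne_zero (pow_ne_zero 3 hT0) hw0
  have h20 : (2 : L⟦X⟧) ≠ 0 := by
    intro h
    have h3 := congrArg constantCoeff h
    rw [map_ofNat, map_zero] at h3
    exact two_ne_zero h3
  have hP : (1 - C g * T ^ 2 - 2 * (C a * (T * W))) * cs (omS g a) T = 1 := by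
    have h3 := congrArg (fun f => cs f T) (PS_omS g a)
    simp only [PS, cs_mul hT, cs_sub hT, cs_pow hT, cs_X hT, cs_one, cs_C] at h3
    have h0 : cs (2 : L⟦X⟧) T = 2 := cs_ofNat T 2
    rw [h0] at h3
    have h4 : T * W = T ^ 4 * cs (wS g a) T := by
      rw [hWe]
      ring
    rw [h4]
    exact h3
  have hd : derivative L u = cs (omS g a) T * derivative L T := by
    have h3 : 2 * W * derivative L u = 2 * W * (cs (omS g a) T * derivative L T) := by
      rw [hS] at hD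
      unfold CEq at hE
      linear_combination (derivative L T * W) * hP -
        (3 * (cs (omS g a) T * derivative L T)) * hE + hD
    exact mul_left_cancel₀ (mul_ne_zero h20 hW0) h3
  refine ⟨derivative.ext ?_ ?_, hWe⟩
  · rw [d_cs hT, d_lgS, hd]
  · rw [constantCoeff_cs hT, lgS_const, hu]

end lg

/-! ## Integrality -/

section int

variable {L : Type} [Field L] {O : Subring L} {g a : L}

theorem inWS (hg : g ∈ O) (ha : a ∈ O) : In O (wS g a) := fun n => by
  have h := congrArg (coeff n) (map_wS (⟨g, hg⟩ : O) ⟨a, ha⟩ O.subtype)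
  rw [coeff_map] at h
  have h1 : wS g a = wS (O.subtype ⟨g, hg⟩) (O.subtype ⟨a, ha⟩) := rfl
  rw [h1, ← h]
  exact Subtype.prop _

theorem inOmS (hg : g ∈ O) (ha : a ∈ O) : In O (omS g a) := fun n => by
  have h := congrArg (coeff n) (map_omS (⟨g, hg⟩ : O) ⟨a, ha⟩ O.subtype)
  rw [coeff_map] at h
  have h1 : omS g a = omS (O.subtype ⟨g, hg⟩) (O.subtype ⟨a, ha⟩) := rfl
  rw [h1, ← h]
  exact Subtype.prop _

theorem omS_c2 (g a : L) : coeff 2 (omS g a) = g := by
  obtain ⟨Z, hZ⟩ := omS_exp g a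
  rw [hZ]
  simp only [map_add, coeff_C_mul, coeff_X_pow, coeff_one, coeff_X_pow_mul']
  norm_num

end int

/-! ## The relations -/

/-- The relations between `u`, `T = T(u)`, `W = W(u)`: the curve `y² = x³ + g x² + a x`, `x = T/W`,
`y = -1/W`, and `dx/(2 y) = du`. -/
structure TWr {R : Type} [CommRing R] (g a : R) (u T W : PowerSeries R) : Prop where
  curve : W = T ^ 3 + C g * T ^ 2 * W + C a * T * W ^ 2
  diff : derivative R T * W - T * derivative R W = -(2 * W * derivative R u)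
  T0 : coeff 0 T = 0
  T1 : coeff 1 T = coeff 1 u
  W0 : coeff 0 W = 0

/-- From the short Weierstrass form. -/
theorem TWr.of {L : Type} [Field L] [CharZero L] {g a a4 a6 : L} (h4 : a4 = a - g ^ 2 / 3)
    (h6 : a6 = 2 * g ^ 3 / 27 - a * g / 3) {u T W : PowerSeries L} (h : DM.F4.TWr a4 a6 u T W) :
    TWr g a u (T - C (g / 3) * W) W := by
  have hT := h.T0
  have hW := h.W0
  rw [coeff_zero_eq_constantCoeff_apply] at hT hW
  obtain ⟨e, he⟩ : ∃ e, e = g / 3 := ⟨_, rfl⟩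
  have hg : g = 3 * e := by rw [he]; ring
  have e4 : a4 = a - 3 * e ^ 2 := by rw [h4, hg]; ring
  have e6 : a6 = 2 * e ^ 3 - a * e := by rw [h6, hg]; ring
  rw [← he]
  refine ⟨?_, ?_, ?_, ?_, h.W0⟩
  · have h1 := h.curve
    rw [e4, e6] at h1
    rw [hg]
    simp only [map_sub, map_mul, map_pow, map_ofNat] at h1 ⊢
    linear_combination h1
  · have h1 := h.diff
    rw [map_sub, Derivation.leibniz, derivative_C]
    simp only [smul_eq_mul]
    linear_combination h1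
  · rw [coeff_zero_eq_constantCoeff_apply, map_sub, map_mul, hT, hW, mul_zero, sub_zero]
  · rw [map_sub, coeff_C_mul, h.T1]
    obtain ⟨T', hT'⟩ := (X_dvd_iff).2 hT
    obtain ⟨W', hW'⟩ := (X_dvd_iff).2 hW
    have h1 : W = X ^ 2 * (X * T' ^ 3 + C a4 * (X * T' * W' ^ 2) + C a6 * (X * W' ^ 3)) := by
      have h2 := h.curve
      rw [hT'] at h2
      have h3 : C a4 * (X * T') * W ^ 2 + C a6 * W ^ 3 =
          X ^ 2 * (C a4 * (X * T' * W' ^ 2) + C a6 * (X * W' ^ 3)) := by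
        rw [hW']
        ring
      linear_combination h2 + h3
    have h2 : coeff 1 W = 0 := by
      rw [h1, coeff_X_pow_mul', if_neg (by norm_num)]
    rw [h2, mul_zero, sub_zero]

section val

variable {Om : Type} [Field Om] [CharZero Om] {V : ValuationSubring Om} {c : Om}

omit [CharZero Om] in
theorem c_mem (h3 : (3 : Om)⁻¹ ∉ V) (hc : c ^ 4 = 3) : c ∈ V := by
  by_contra h
  have h1 := (V.mem_or_inv_mem c).resolve_left h
  apply h3
  rw [← hc, ← inv_pow]
  exact pow_mem h1 4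

omit [CharZero Om] in
theorem c_inv (h3 : (3 : Om)⁻¹ ∉ V) (hc : c ^ 4 = 3) : c⁻¹ ∉ V := by
  intro h1
  apply h3
  rw [← hc, ← inv_pow]
  exact pow_mem h1 4

private theorem three_pow (j : ℕ) (hj : 2 ≤ j) : 4 * j + 1 ≤ 3 ^ j := by
  induction j with
  | zero => omega
  | succ j ih =>
    rcases Nat.lt_or_ge j 2 with h | h
    · have h1 : j = 1 := by omega
      rw [h1]
      norm_num
    · have h1 := ih h
      rw [pow_succ]
      omega

/-- the estimate of the logarithm -/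
theorem est (h3 : (3 : Om)⁻¹ ∉ V) (hc : c ^ 4 = 3) {k m : ℕ} (hk : 1 ≤ k) (hm : 1 ≤ m)
    (m3 : m ≠ 3) : (c ^ k) ^ (m - 1) / m ∈ V := by
  obtain ⟨j, m', hm', rfl⟩ := Nat.exists_eq_pow_mul_and_not_dvd (show m ≠ 0 by omega) 3
    (by norm_num)
  have hc0 : c ≠ 0 := by
    rintro rfl
    rw [zero_pow (by norm_num)] at hc
    exact three_ne_zero hc.symm
  have hm0 : m' ≠ 0 := by
    rintro rfl
    exact hm' (dvd_zero 3)
  have hm1 : (m' : Om) ≠ 0 := by exact_mod_cast hm0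
  have h4 : 4 * j ≤ 3 ^ j * m' - 1 := by
    rcases Nat.lt_or_ge j 2 with h | h
    · interval_cases j
      · omega
      · omega
    · have h5 := three_pow j h
      have h6 : 3 ^ j * 1 ≤ 3 ^ j * m' := Nat.mul_le_mul_left _ (by omega)
      omega
  have h5 : 4 * j ≤ k * (3 ^ j * m' - 1) := by
    have h6 : 1 * (3 ^ j * m' - 1) ≤ k * (3 ^ j * m' - 1) := Nat.mul_le_mul_right _ hk
    omega
  have h6 : (c ^ k) ^ (3 ^ j * m' - 1) / ((3 ^ j * m' : ℕ) : Om) =
      c ^ (k * (3 ^ j * m' - 1) - 4 * j) * (m' : Om)⁻¹ := by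
    have e1 : c ^ (k * (3 ^ j * m' - 1)) =
        c ^ (k * (3 ^ j * m' - 1) - 4 * j) * (c ^ 4) ^ j := by
      rw [← pow_mul, ← pow_add, Nat.sub_add_cancel h5]
    rw [← pow_mul, e1, hc]
    push_cast
    have : (3 : Om) ^ j ≠ 0 := pow_ne_zero _ three_ne_zero
    field_simp
  rw [h6]
  exact mul_mem (pow_mem (c_mem h3 hc) _) (DM.F4.nat_inv h3 hm')

end val

/-- **FH**, generic form. -/
theorem fh {Om : Type} [Field Om] [CharZero Om] {V : ValuationSubring Om} {S : Subfield Om}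
    {ϖ : Om} (hU : Unif V S ϖ) (h3 : (3 : Om)⁻¹ ∉ V) {c g a lam q : Om} {k : ℕ}
    (hk : k = 1 ∨ k = 2) (hc : c ^ 4 = 3) (cS : c ∈ S) (gS : g ∈ S) (ha : a ∈ V) (ha0 : a ≠ 0)
    (hai : a⁻¹ ∈ V) (aS : a ∈ S) (hq : q * c ∈ V) (hq0 : q ≠ 0) (hqi : (q * c)⁻¹ ∈ V) (qS : q ∈ S)
    (e1 : g = lam ^ 2 - 3 * q ^ 2) (e2 : a = q ^ 3 * (2 * lam + 3 * q))
    {u T W ψ Q1 Q2 : Om⟦X⟧}
    (uV : ∀ n, coeff n u / c ^ k ∈ V) (uS : ∀ n, coeff n u ∈ S) (u0 : coeff 0 u = 0)
    (u1 : coeff 1 u ≠ 0) (u1' : (coeff 1 u / c ^ k)⁻¹ ∈ V) (hT : TWr g a u T W)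
    (hψ : ψ ^ 3 * W = -(X ^ 3 * (1 + C lam * T + C (q ^ 3) * W))) (hQ2 : Q2 ≠ 0)
    (hQ : Q2 * ψ = Q1) (Q1S : ∀ n, coeff n Q1 ∈ S) (Q2S : ∀ n, coeff n Q2 ∈ S)
    (Q1V : ∀ n, coeff n Q1 ∈ V) (Q2V : ∀ n, coeff n Q2 ∈ V) : False := by
  have hc0 : c ≠ 0 := by
    rintro rfl
    rw [zero_pow (by norm_num)] at hc
    exact three_ne_zero hc.symm
  have hcV := c_mem h3 hc
  have hcI := c_inv h3 hc
  have hk1 : 1 ≤ k := by omega
  have hγ0 : c ^ k ≠ 0 := pow_ne_zero k hc0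
  have m3 : (3 : Om) ∈ V := by exact_mod_cast natCast_mem V 3
  have m2i : (2 : Om)⁻¹ ∈ V := by exact_mod_cast DM.F4.nat_inv h3 (n := 2) (by norm_num)
  have m2 : (2 : Om) ∈ V := by exact_mod_cast natCast_mem V 2
  -- the unit `A = a/(q c)³`
  obtain ⟨A, hA⟩ : ∃ A, A = a * (q * c)⁻¹ ^ 3 := ⟨_, rfl⟩
  have hAV : A ∈ V := by
    rw [hA]
    exact mul_mem ha (pow_mem hqi 3)
  have hA0 : A ≠ 0 := by
    rw [hA]
    exact mul_ne_zero ha0 (pow_ne_zero 3 (inv_ne_zero (mul_ne_zero hq0 hc0)))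
  have hAI : A⁻¹ ∈ V := by
    rw [hA, mul_inv, inv_pow, inv_inv]
    exact mul_mem hai (pow_mem hq 3)
  have e3 : (3 : Om) = c ^ 4 := hc.symm
  have hlam : lam = c ^ 3 * ((A - q * c) * 2⁻¹) := by
    have h4 : 2 * lam = a / q ^ 3 - 3 * q := by
      rw [e2]
      field_simp
      ring
    have h5 : c ^ 3 * (A - q * c) = a / q ^ 3 - 3 * q := by
      rw [hA, e3]
      field_simp
    linear_combination (h4 - h5) / 2
  obtain ⟨l, hl⟩ : ∃ l, l = (A - q * c) * (2 : Om)⁻¹ := ⟨_, rfl⟩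
  rw [← hl] at hlam
  have hlV : l ∈ V := by
    rw [hl]
    exact mul_mem (sub_mem hAV hq) m2i
  have hlamV : lam ∈ V := by
    rw [hlam]
    exact mul_mem (pow_mem hcV 3) hlV
  have hlamS : lam ∈ S := by
    have h4 : lam = (a / q ^ 3 - 3 * q) / 2 := by
      rw [e2]
      field_simp
      ring
    rw [h4]
    exact div_mem (sub_mem (div_mem aS (pow_mem qS 3)) (mul_mem (by exact_mod_cast natCast_mem S 3) qS))
      (by exact_mod_cast natCast_mem S 2)
  -- `g/c²` is integral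
  have hgc : g = c ^ 2 * (c ^ 4 * l ^ 2 - (q * c) ^ 2) := by
    rw [e1, hlam, e3]
    ring
  have hg : g ∈ V := by
    rw [hgc]
    exact mul_mem (pow_mem hcV 2) (sub_mem (mul_mem (pow_mem hcV 4) (pow_mem hlV 2)) (pow_mem hq 2))
  -- the unit `l'`
  obtain ⟨l', hl'⟩ : ∃ l', l' = l - q * c := ⟨_, rfl⟩
  have hl'e : l' = (A + -(3 * (q * c))) * (2 : Om)⁻¹ := by
    rw [hl', hl]
    field_simp
    ring
  have hun := DN.F4.unit_add (V := V) hAV hA0 hAI (m := -(3 * (q * c)))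
    (neg_mem (mul_mem m3 hq)) (by
    right
    intro h4
    apply h3
    have h5 : (3 : Om)⁻¹ = -((-(3 * (q * c)))⁻¹ * (q * c)) := by
      field_simp
    rw [h5]
    exact neg_mem (mul_mem h4 hq))
  have hl'0 : l' ≠ 0 := by
    rw [hl'e]
    exact mul_ne_zero hun.1 (inv_ne_zero two_ne_zero)
  have hl'V : l' ∈ V := by
    rw [hl']
    exact sub_mem hlV hq
  have hl'I : l'⁻¹ ∈ V := by
    rw [hl'e, mul_inv, inv_inv]
    exact mul_mem hun.2 m2
  have hT0 : constantCoeff T = 0 := by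
    rw [← coeff_zero_eq_constantCoeff_apply]
    exact hT.T0
  have hW0 : constantCoeff W = 0 := by
    rw [← coeff_zero_eq_constantCoeff_apply]
    exact hT.W0
  have hu0 : constantCoeff u = 0 := by
    rw [← coeff_zero_eq_constantCoeff_apply]
    exact u0
  have hTne : T ≠ 0 := by
    intro h
    have := hT.T1
    rw [h, map_zero] at this
    exact u1 this.symm
  obtain ⟨hlg, hWT⟩ := lg_of_diff hT0 hW0 hu0 hTne hT.curve hT.diff
  -- the series `T1`
  obtain ⟨T1, hT1⟩ : ∃ T1, T1 = C (c ^ k)⁻¹ * T := ⟨_, rfl⟩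
  have hT1' : T = C (c ^ k) * T1 := by
    rw [hT1, ← mul_assoc, ← map_mul, mul_inv_cancel₀ hγ0, map_one, one_mul]
  have hT10 : constantCoeff T1 = 0 := by
    rw [hT1, map_mul, hT0, mul_zero]
  obtain ⟨ℓ, hℓ⟩ : ∃ ℓ : Om⟦X⟧, ℓ = mk fun m => coeff m (lgS g a) * (c ^ k) ^ (m - 1) := ⟨_, rfl⟩
  have hℓ0 : constantCoeff ℓ = 0 := by
    rw [← coeff_zero_eq_constantCoeff_apply, hℓ, coeff_mk, coeff_zero_eq_constantCoeff_apply,
      lgS_const, zero_mul]
  have hℓ1 : coeff 1 ℓ = 1 := by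
    rw [hℓ, coeff_mk, coeff_one_lgS, Nat.sub_self, pow_zero, mul_one]
  have hoV : In V.toSubring (omS g a) := inOmS (O := V.toSubring) hg ha
  have hℓV : In V.toSubring ℓ := by
    intro m
    rcases Nat.eq_zero_or_pos m with h | h
    · rw [h, coeff_zero_eq_constantCoeff_apply, hℓ0]
      exact V.zero_mem
    · have h4 : coeff m ℓ = coeff (m - 1) (omS g a) * ((c ^ k) ^ (m - 1) / m) := by
        rw [hℓ, coeff_mk, lgS, coeff_mk]
        ring
      rw [h4]
      by_cases m3' : m = 3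
      · rw [m3', show 3 - 1 = 2 from rfl, omS_c2]
        have h5 : g * ((c ^ k) ^ 2 / ((3 : ℕ) : Om)) =
            (c ^ 4 * l ^ 2 - (q * c) ^ 2) * c ^ (2 * (k - 1)) := by
          obtain ⟨k', rfl⟩ : ∃ k', k = k' + 1 := ⟨k - 1, by omega⟩
          rw [Nat.add_sub_cancel]
          push_cast
          rw [hgc, e3]
          have e5 : (c ^ (k' + 1)) ^ 2 = c ^ (2 * k') * c ^ 2 := by ring
          rw [e5]
          field_simp
        have h6 : (c ^ 4 * l ^ 2 - (q * c) ^ 2) * c ^ (2 * (k - 1)) ∈ V :=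
          mul_mem (sub_mem (mul_mem (pow_mem hcV 4) (pow_mem hlV 2)) (pow_mem hq 2)) (pow_mem hcV _)
        rw [h5]
        exact h6
      exact V.mul_mem _ _ (hoV _) (est h3 hc hk1 h m3')
  have hcs : cs ℓ T1 = C (c ^ k)⁻¹ * u := by
    ext n
    rw [coeff_C_mul, ← hlg, coeff_cs hT10, coeff_cs hT0, Finset.mul_sum]
    refine Finset.sum_congr rfl fun d _ => ?_
    rw [hT1', mul_pow, ← map_pow, coeff_C_mul, hℓ, coeff_mk]
    rcases Nat.eq_zero_or_pos d with h | h
    · rw [h, coeff_zero_eq_constantCoeff_apply, lgS_const]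
      ring
    · obtain ⟨d', rfl⟩ : ∃ d', d = d' + 1 := ⟨d - 1, by omega⟩
      rw [Nat.add_sub_cancel, pow_succ (c ^ k) d']
      field_simp
  have hT1V : In V.toSubring T1 := by
    refine DN.F4.In.of_cs hℓV hℓ0 hℓ1 hT10 ?_
    rw [hcs]
    intro n
    rw [coeff_C_mul]
    have := uV n
    rw [div_eq_inv_mul] at this
    exact this
  have hTS : In S.toSubring T := by
    refine DN.F4.In.of_cs (f := lgS g a) ?_ (lgS_const g a) (coeff_one_lgS g a) hT0 ?_
    · intro m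
      rw [lgS, coeff_mk]
      have h3 : coeff (m - 1) (omS g a) ∈ S := inOmS (O := S.toSubring) gS aS _
      have h4 : coeff (m - 1) (omS g a) / m ∈ S := div_mem h3 (natCast_mem S m)
      exact h4
    · rw [hlg]
      exact uS
  have hTV : In V.toSubring T := by
    rw [hT1']
    exact (In.C (pow_mem hcV k)).mul hT1V
  have hwV : In V.toSubring (cs (wS g a) T) := (inWS (O := V.toSubring) hg ha).cs hTV hT0
  have hc11 : coeff 1 T1 = coeff 1 u / c ^ k := by
    rw [hT1, coeff_C_mul, hT.T1]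
    ring
  -- the series `t = T / X`
  obtain ⟨t, ht⟩ := (X_dvd_iff).2 hT0
  have htc : ∀ n, coeff n t = coeff (n + 1) T := by
    intro n
    rw [ht, coeff_succ_X_mul]
  have hWne : W ≠ 0 := by
    rw [hWT]
    refine mul_ne_zero (pow_ne_zero 3 hTne) ?_
    intro h
    have h3 : constantCoeff (cs (wS g a) T) = 1 := by
      rw [constantCoeff_cs hT0, wS_const]
    rw [h, map_zero] at h3
    exact zero_ne_one h3
  have hcb : (-(t * ψ)) ^ 3 = (1 - C g * T ^ 2 - C a * T * W) * (1 + C lam * T) +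
      C (q ^ 3) * T ^ 3 := by
    apply mul_right_cancel₀ hWne
    have h3 := hT.curve
    have h4 : (-(t * ψ)) ^ 3 * W = T ^ 3 * (1 + C lam * T + C (q ^ 3) * W) := by
      rw [ht] at hψ ⊢
      linear_combination (-(t ^ 3)) * hψ
    rw [h4]
    linear_combination (-(1 + C lam * T)) * h3
  -- `γ = c ^ (k + 3)`
  have hγ1 : c ^ (k + 3) ≠ 0 := pow_ne_zero _ hc0
  have hγ2 : (c ^ (k + 3)) ^ 2 / 27 ∉ V := by
    intro h
    apply hcI
    have h4 : c⁻¹ = (c ^ (k + 3)) ^ 2 / 27 * c ^ (5 - 2 * k) := by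
      have h5 : (27 : Om) = c ^ 12 := by
        rw [show 12 = 4 * 3 from rfl, pow_mul, hc]
        norm_num
      have h7 : (c ^ (k + 3)) ^ 2 * c ^ (5 - 2 * k) = c ^ 11 := by
        rw [← pow_mul, ← pow_add]
        congr 1
        omega
      rw [div_mul_eq_mul_div, h7, h5]
      field_simp
    rw [h4]
    exact mul_mem h (pow_mem hcV _)
  -- `s` and `y`
  obtain ⟨w, hw⟩ : ∃ w, w = cs (wS g a) T := ⟨_, rfl⟩
  rw [← hw] at hwV hWT
  obtain ⟨s, hs⟩ : ∃ s, s = 1 + C (q * c * c ^ (k - 1)) * T1 := ⟨_, rfl⟩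
  obtain ⟨y, hy⟩ : ∃ y, y = C l' * T1 - C (c ^ (k + 3) * l ^ 2) * T1 ^ 2 -
    C (l * g * c ^ (2 * k)) * T1 ^ 3 -
    C (a * c ^ (3 * (k - 1))) * (T1 ^ 4 * w) * (1 + C lam * T) := ⟨_, rfl⟩
  have vs : In V.toSubring s := by
    rw [hs]
    exact In.one.add ((In.C (mul_mem hq (pow_mem hcV _))).mul hT1V)
  have v1 : In V.toSubring (1 + C lam * T) := In.one.add ((In.C hlamV).mul hTV)
  have vy : In V.toSubring y := by
    rw [hy]
    exact ((((In.C hl'V).mul hT1V).sub
      ((In.C (mul_mem (pow_mem hcV _) (pow_mem hlV 2))).mul (hT1V.pow 2))).sub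
      ((In.C (mul_mem (mul_mem hlV hg) (pow_mem hcV _))).mul (hT1V.pow 3))).sub
      (((In.C (mul_mem ha (pow_mem hcV _))).mul ((hT1V.pow 4).mul hwV)).mul v1)
  have hsy : (1 - C g * T ^ 2 - C a * T * W) * (1 + C lam * T) + C (q ^ 3) * T ^ 3 =
      s ^ 3 + C (c ^ (k + 3)) * y := by
    obtain ⟨k', rfl⟩ : ∃ k', k = k' + 1 := ⟨k - 1, by omega⟩
    have e3' : (3 : Om⟦X⟧) = C c ^ 4 := by
      rw [← map_pow, hc, map_ofNat]
    have f1 : (C g : Om⟦X⟧) = C lam ^ 2 - 3 * C q ^ 2 := by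
      rw [e1, map_sub, map_pow, map_mul, map_pow, map_ofNat]
    have f2 : (C lam : Om⟦X⟧) = C c ^ 3 * C l := by
      rw [hlam, map_mul, map_pow]
    have f3 : (C l' : Om⟦X⟧) = C l - C q * C c := by
      rw [hl', map_sub, map_mul]
    rw [hWT, hs, hy, hT1', Nat.add_sub_cancel]
    simp only [map_mul, map_pow]
    rw [f3]
    have e4' : (C c : Om⟦X⟧) ^ (3 * k') = (C c ^ k') ^ 3 := by
      rw [← pow_mul]
      congr 1
      omega
    have e5' : (C c : Om⟦X⟧) ^ (2 * (k' + 1)) = (C c ^ k') ^ 2 * C c ^ 2 := by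
      rw [← pow_mul, ← pow_add]
      congr 1
      omega
    have e6' : (C c : Om⟦X⟧) ^ (k' + 1 + 3) = C c ^ k' * C c ^ 4 := by
      rw [← pow_add]
    rw [e4', e5', e6', pow_succ (C c) k']
    obtain ⟨K, hK⟩ : ∃ K : Om⟦X⟧, K = C c ^ k' := ⟨_, rfl⟩
    rw [← hK]
    obtain ⟨G, hG⟩ : ∃ G : Om⟦X⟧, G = C g := ⟨_, rfl⟩
    rw [← hG] at f1 ⊢
    obtain ⟨Lm, hLm⟩ : ∃ Lm : Om⟦X⟧, Lm = C lam := ⟨_, rfl⟩
    rw [← hLm] at f1 f2 ⊢
    generalize (C c : Om⟦X⟧) = cc at *
    generalize (C q : Om⟦X⟧) = qq at *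
    generalize (C l : Om⟦X⟧) = ll at *
    generalize (C a : Om⟦X⟧) = aa at *
    linear_combination (-(K ^ 2 * cc ^ 2 * T1 ^ 2)) * f1 +
      (K * cc * T1 - K ^ 3 * cc ^ 3 * T1 ^ 3 * G - K ^ 2 * cc ^ 2 * T1 ^ 2 * (Lm + cc ^ 3 * ll)) * f2 -
      (qq * K * cc * T1) * e3'
  have hy1 : coeff 1 y = l' * (coeff 1 u / c ^ k) := by
    obtain ⟨t1, ht1⟩ := (X_dvd_iff).2 hT10
    have h4 : y = C l' * T1 + X ^ 2 * (-(C (c ^ (k + 3) * l ^ 2) * t1 ^ 2) -
        C (l * g * c ^ (2 * k)) * (X * t1 ^ 3) -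
        C (a * c ^ (3 * (k - 1))) * (X ^ 2 * t1 ^ 4 * w) * (1 + C lam * T)) := by
      rw [hy]
      obtain ⟨T1', hT1'⟩ : ∃ T1', T1' = T1 := ⟨_, rfl⟩
      rw [← hT1'] at ht1 ⊢
      have g1 : T1' ^ 2 = X ^ 2 * t1 ^ 2 := by rw [ht1]; ring
      have g2 : T1' ^ 4 = X ^ 4 * t1 ^ 4 := by rw [ht1]; ring
      have g3 : T1' ^ 3 = X ^ 3 * t1 ^ 3 := by rw [ht1]; ring
      rw [g1, g2, g3]
      ring
    rw [h4, map_add, coeff_C_mul, coeff_X_pow_mul', if_neg (by norm_num), add_zero, hc11]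
  have hu10 : coeff 1 u / c ^ k ≠ 0 := div_ne_zero u1 hγ0
  have sS : In S.toSubring s := by
    rw [hs, hT1]
    have hγS : (c ^ k)⁻¹ ∈ S := inv_mem (pow_mem cS k)
    exact In.one.add ((In.C (mul_mem (mul_mem qS cS) (pow_mem cS _))).mul ((In.C hγS).mul hTS))
  have tS : In S.toSubring t := fun n => by
    rw [htc]
    exact hTS _
  have tV : In V.toSubring t := fun n => by
    rw [htc]
    exact hTV _
  have iQ1 : In S.toSubring Q1 := Q1S
  have iQ2 : In S.toSubring Q2 := Q2S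
  have wQ1 : In V.toSubring Q1 := Q1V
  have wQ2 : In V.toSubring Q2 := Q2V
  refine DM.F4.con hU h3 hγ1 hγ2 (y := y) (s := s) (Q1 := -(t * Q1)) (Q2 := Q2) vy vs ?_ ?_
    (((tS.mul iQ1).neg).sub (sS.mul iQ2)) Q2S (((tV.mul wQ1).neg).sub (vs.mul wQ2)) Q2V hQ2 ?_
  · rw [hy1]
    exact mul_ne_zero hl'0 hu10
  · rw [hy1, mul_inv]
    exact mul_mem hl'I u1'
  · rw [← hsy, ← hcb, ← hQ]
    ring

end DU.F4
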